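import Pool.Agent.Helper15.DAF.Stmts

/-!
# Row IND2 of the project DAF: elements of the left ideal `Dop B · m` have right coefficients in `m`
-/

namespace Pool.Agent.Helper15.DAF

namespace S4

open Pool.Agent.Helper15.DAF

theorem tprod {M : Type} [Monoid M] : ∀ (n : ℕ) (t : Fin n → M)
    (_ : ∀ i j, t i * t j = t j * t i) (α : Fin n → ℕ) (j : Fin n),
    t j * (List.ofFn fun i => t i ^ α i).prod
      = (List.ofFn fun i => t i ^ (Function.update α j (α j + 1)) i).prod := by
  intro n
  induction n with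
  | zero => intro t _ α j; exact j.elim0
  | succ n ih =>
    intro t hc α j
    rw [List.ofFn_succ, List.ofFn_succ, List.prod_cons, List.prod_cons]
    refine Fin.cases ?_ (fun j => ?_) j
    · have h1 : (fun i : Fin n => t i.succ ^ (Function.update α 0 (α 0 + 1)) i.succ)
          = fun i : Fin n => t i.succ ^ α i.succ := by
        funext i
        rw [Function.update_of_ne (Fin.succ_ne_zero i)]
      rw [h1, Function.update_self, ← mul_assoc, pow_succ']
    · have h1 : (fun i : Fin n => t i.succ ^ (Function.update α j.succ (α j.succ + 1)) i.succ)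
          = fun i : Fin n => t i.succ ^
            (Function.update (fun i : Fin n => α i.succ) j (α j.succ + 1)) i := by
        funext i
        by_cases hij : i = j
        · subst hij; rw [Function.update_self, Function.update_self]
        · rw [Function.update_of_ne hij,
            Function.update_of_ne (fun h => hij (Fin.succ_injective n h))]
      rw [h1, Function.update_of_ne (Fin.succ_ne_zero j).symm]
      have h2 := ih (fun i => t i.succ) (fun i k => hc i.succ k.succ) (fun i => α i.succ) j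
      have h3 : Commute (t j.succ) (t 0 ^ α 0) := (show Commute (t j.succ) (t 0) from
        hc j.succ 0).pow_right _
      rw [← h2, ← mul_assoc, h3.eq, mul_assoc]

variable {K : Type} [Field K] [Algebra ℂ K]

theorem mulOp_apply (a x : K) : mulOp a x = a * x := rfl

theorem mulOp_add (a b : K) : mulOp (a + b) = mulOp a + mulOp b := by
  apply LinearMap.ext; intro x
  rw [LinearMap.add_apply, mulOp_apply, mulOp_apply, mulOp_apply, add_mul]

theorem mulOp_mul (a b : K) : mulOp (a * b) = mulOp a * mulOp b := by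
  apply LinearMap.ext; intro x
  rw [Module.End.mul_apply, mulOp_apply, mulOp_apply, mulOp_apply, mul_assoc]

theorem mulOp_zero : mulOp (0 : K) = 0 := by
  apply LinearMap.ext; intro x
  rw [mulOp_apply, zero_mul, LinearMap.zero_apply]

theorem mulOp_one : mulOp (1 : K) = 1 := by
  apply LinearMap.ext; intro x
  rw [mulOp_apply, one_mul, Module.End.one_apply]

theorem mulOp_alg (c : ℂ) : mulOp (algebraMap ℂ K c) = algebraMap ℂ (Module.End ℂ K) c := by
  apply LinearMap.ext; intro x
  rw [mulOp_apply, Module.algebraMap_end_apply, Algebra.smul_def]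

theorem der_one {B : Subalgebra ℂ K} {d : Module.End ℂ K} (hd : d ∈ Der B) : d 1 = 0 := by
  have h := hd.1 1 1
  rw [mul_one, one_mul] at h
  have h2 : d 1 + d 1 - d 1 = d 1 - d 1 := by rw [← h]
  rw [add_sub_cancel_right, sub_self] at h2
  exact h2

theorem mulOp_comm_der {B : Subalgebra ℂ K} {d : Module.End ℂ K} (hd : d ∈ Der B) (b : K) :
    mulOp b * d = d * mulOp b - mulOp (d b) := by
  apply LinearMap.ext; intro x
  rw [LinearMap.sub_apply, Module.End.mul_apply, Module.End.mul_apply, mulOp_apply, mulOp_apply,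
    mulOp_apply, hd.1 b x]
  ring

theorem bracket_mem {B : Subalgebra ℂ K} {d e : Module.End ℂ K} (hd : d ∈ Der B)
    (he : e ∈ Der B) : d * e - e * d ∈ Der B := by
  refine ⟨fun a b => ?_, fun b hb => ?_⟩
  · simp only [LinearMap.sub_apply, Module.End.mul_apply]
    rw [he.1 a b, hd.1 a b, map_add, map_add, hd.1 a (e b), hd.1 b (e a), he.1 a (d b),
      he.1 b (d a)]
    ring
  · rw [LinearMap.sub_apply, Module.End.mul_apply, Module.End.mul_apply]
    exact B.sub_mem (hd.2 _ (he.2 _ hb)) (he.2 _ (hd.2 _ hb))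

theorem t_comm {B : Subalgebra ℂ K} {n : ℕ} {t : Fin n → Module.End ℂ K} {y : Fin n → K}
    (h : IsCoord B n t y) (i j : Fin n) : t i * t j = t j * t i := by
  obtain ⟨ht, hy, hty, hd⟩ := h
  have h1 := hd _ (bracket_mem (ht i) (ht j))
  have h2 : ∀ k, (t i * t j - t j * t i) (y k) = 0 := by
    intro k
    have h3 : ∀ i j : Fin n, t i (t j (y k)) = 0 := by
      intro i j
      rw [hty j k]
      split_ifs
      · exact der_one (ht i)
      · exact map_zero _
    rw [LinearMap.sub_apply, Module.End.mul_apply, Module.End.mul_apply, h3, h3, sub_zero]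
  rw [← sub_eq_zero, h1]
  apply Finset.sum_eq_zero
  intro k _
  rw [h2 k, mulOp_zero, zero_mul]

theorem tmon_step {B : Subalgebra ℂ K} {n : ℕ} {t : Fin n → Module.End ℂ K} {y : Fin n → K}
    (h : IsCoord B n t y) (α : Fin n → ℕ) (j : Fin n) :
    t j * tmon t α = tmon t (Function.update α j (α j + 1)) :=
  tprod n t (t_comm h) α j

theorem tmon_zero {n : ℕ} (t : Fin n → Module.End ℂ K) : tmon t 0 = 1 := by
  unfold tmon
  apply List.prod_eq_one
  intro x hx
  rw [List.mem_ofFn] at hx
  obtain ⟨i, rfl⟩ := hx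
  rw [Pi.zero_apply, pow_zero]

/-- Operators with right coefficients in `S`. -/
noncomputable def RR {n : ℕ} (t : Fin n → Module.End ℂ K) (S : Set K) :
    Submodule ℂ (Module.End ℂ K) :=
  Submodule.span ℂ {Q | ∃ (α : Fin n → ℕ) (b : K), b ∈ S ∧ Q = tmon t α * mulOp b}

theorem RR_t {B : Subalgebra ℂ K} {n : ℕ} {t : Fin n → Module.End ℂ K} {y : Fin n → K}
    (h : IsCoord B n t y) {S : Set K} (j : Fin n) {Q : Module.End ℂ K} (hQ : Q ∈ RR t S) :
    t j * Q ∈ RR t S := by
  unfold RR at hQ ⊢
  induction hQ using Submodule.span_induction with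
  | mem x hx =>
    obtain ⟨α, b, hb, rfl⟩ := hx
    refine Submodule.subset_span ⟨Function.update α j (α j + 1), b, hb, ?_⟩
    rw [← mul_assoc, tmon_step h]
  | zero => rw [mul_zero]; exact Submodule.zero_mem _
  | add x y _ _ hx hy => rw [mul_add]; exact Submodule.add_mem _ hx hy
  | smul c x _ hx => rw [mul_smul_comm]; exact Submodule.smul_mem _ c hx

theorem RR_word {B : Subalgebra ℂ K} {n : ℕ} {t : Fin n → Module.End ℂ K} {y : Fin n → K}
    (h : IsCoord B n t y) {w : Module.End ℂ K} (hw : w ∈ Submonoid.closure (Set.range t)) :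
    ∀ b ∈ B, ∀ b' ∈ B, mulOp b * w * mulOp b' ∈ RR t (B : Set K) := by
  induction hw using Submonoid.closure_induction_left with
  | one =>
    intro b hb b' hb'
    refine Submodule.subset_span ⟨0, b * b', B.mul_mem hb hb', ?_⟩
    rw [tmon_zero, mul_one, one_mul, mulOp_mul]
  | mul_left x hx w' _ ih =>
    obtain ⟨j, rfl⟩ := hx
    intro b hb b' hb'
    have h1 : mulOp b * (t j * w') * mulOp b'
        = t j * (mulOp b * w' * mulOp b') - mulOp (t j b) * w' * mulOp b' := by
      rw [← mul_assoc (mulOp b), mulOp_comm_der (h.1 j) b]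
      simp only [sub_mul, mul_assoc]
    rw [h1]
    exact Submodule.sub_mem _ (RR_t h j (ih b hb b' hb'))
      (ih _ ((h.1 j).2 b hb) b' hb')

theorem tmon_mem {n : ℕ} (t : Fin n → Module.End ℂ K) (α : Fin n → ℕ) :
    tmon t α ∈ Submonoid.closure (Set.range t) := by
  unfold tmon
  apply Submonoid.list_prod_mem
  intro x hx
  rw [List.mem_ofFn] at hx
  obtain ⟨i, rfl⟩ := hx
  exact Submonoid.pow_mem _ (Submonoid.subset_closure (Set.mem_range_self i)) _

theorem RR_mulOp {B : Subalgebra ℂ K} {n : ℕ} {t : Fin n → Module.End ℂ K} {y : Fin n → K}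
    (h : IsCoord B n t y) {b : K} (hb : b ∈ B) {Q : Module.End ℂ K}
    (hQ : Q ∈ RR t (B : Set K)) : mulOp b * Q ∈ RR t (B : Set K) := by
  unfold RR at hQ
  induction hQ using Submodule.span_induction with
  | mem x hx =>
    obtain ⟨α, b', hb', rfl⟩ := hx
    rw [← mul_assoc]
    exact RR_word h (tmon_mem t α) b hb b' hb'
  | zero => rw [mul_zero]; exact Submodule.zero_mem _
  | add x y _ _ hx hy => rw [mul_add]; exact Submodule.add_mem _ hx hy
  | smul c x _ hx => rw [mul_smul_comm]; exact Submodule.smul_mem _ c hx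

/-- The left multipliers of `RR`. -/
noncomputable def LL {n : ℕ} (t : Fin n → Module.End ℂ K) (S : Set K) :
    Subalgebra ℂ (Module.End ℂ K) where
  carrier := {P | ∀ Q ∈ RR t S, P * Q ∈ RR t S}
  mul_mem' := by
    intro P P' hP hP' Q hQ
    rw [mul_assoc]
    exact hP _ (hP' _ hQ)
  add_mem' := by
    intro P P' hP hP' Q hQ
    rw [add_mul]
    exact Submodule.add_mem _ (hP _ hQ) (hP' _ hQ)
  algebraMap_mem' := by
    intro c Q hQ
    rw [← Algebra.smul_def]
    exact Submodule.smul_mem _ c hQ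

theorem Dop_le {B : Subalgebra ℂ K} {n : ℕ} {t : Fin n → Module.End ℂ K} {y : Fin n → K}
    (h : IsCoord B n t y) : Dop B ≤ LL t (B : Set K) := by
  unfold Dop
  apply Algebra.adjoin_le
  rintro P (⟨b, hb, rfl⟩ | hP)
  · exact fun Q hQ => RR_mulOp h hb hQ
  · intro Q hQ
    rw [h.2.2.2 P hP, Finset.sum_mul]
    refine Submodule.sum_mem _ fun i _ => ?_
    rw [mul_assoc]
    exact RR_mulOp h (hP.2 _ (h.2.1 i)) (RR_t h i hQ)

theorem Dop_RR {B : Subalgebra ℂ K} {n : ℕ} {t : Fin n → Module.End ℂ K} {y : Fin n → K}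
    (h : IsCoord B n t y) {P : Module.End ℂ K} (hP : P ∈ Dop B) : P ∈ RR t (B : Set K) := by
  have h1 : (1 : Module.End ℂ K) ∈ RR t (B : Set K) :=
    Submodule.subset_span ⟨0, 1, B.one_mem, by rw [tmon_zero, mulOp_one, mul_one]⟩
  have h2 := Dop_le h hP 1 h1
  rwa [mul_one] at h2

theorem RR_right {B : Subalgebra ℂ K} {m : Set K} (hm : Pt B m) {n : ℕ}
    {t : Fin n → Module.End ℂ K} {g : K} (hg : g ∈ m) {Q : Module.End ℂ K}
    (hQ : Q ∈ RR t (B : Set K)) : Q * mulOp g ∈ RR t m := by
  unfold RR at hQ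
  induction hQ using Submodule.span_induction with
  | mem x hx =>
    obtain ⟨α, b, hb, rfl⟩ := hx
    refine Submodule.subset_span ⟨α, b * g, hm.mul b hb g hg, ?_⟩
    rw [mul_assoc, mulOp_mul]
  | zero => rw [zero_mul]; exact Submodule.zero_mem _
  | add x y _ _ hx hy => rw [add_mul]; exact Submodule.add_mem _ hx hy
  | smul c x _ hx => rw [smul_mul_assoc]; exact Submodule.smul_mem _ c hx

theorem RR_form {B : Subalgebra ℂ K} {m : Set K} (hm : Pt B m) {n : ℕ}
    {t : Fin n → Module.End ℂ K} {Q : Module.End ℂ K} (hQ : Q ∈ RR t m) :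
    ∃ f : (Fin n → ℕ) →₀ K, (∀ α, f α ∈ m) ∧ Q = f.sum fun α c => tmon t α * mulOp c := by
  classical
  unfold RR at hQ
  induction hQ using Submodule.span_induction with
  | mem x hx =>
    obtain ⟨α, b, hb, rfl⟩ := hx
    refine ⟨Finsupp.single α b, fun β => ?_, ?_⟩
    · rw [Finsupp.single_apply]
      split_ifs
      · exact hb
      · exact hm.zero
    · rw [Finsupp.sum_single_index (by rw [mulOp_zero, mul_zero])]
  | zero => exact ⟨0, fun _ => hm.zero, by rw [Finsupp.sum_zero_index]⟩
  | add x y _ _ hx hy =>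
    obtain ⟨f, hf, rfl⟩ := hx
    obtain ⟨g, hg, rfl⟩ := hy
    refine ⟨f + g, fun α => ?_, ?_⟩
    · rw [Finsupp.add_apply]; exact hm.add _ (hf α) _ (hg α)
    · rw [Finsupp.sum_add_index']
      · intro a; rw [mulOp_zero, mul_zero]
      · intro a b c; rw [mulOp_add, mul_add]
  | smul c x _ hx =>
    obtain ⟨f, hf, rfl⟩ := hx
    refine ⟨f.mapRange (fun z => algebraMap ℂ K c * z) (mul_zero _), fun α => ?_, ?_⟩
    · rw [Finsupp.mapRange_apply]; exact hm.mul _ (B.algebraMap_mem c) _ (hf α)
    · rw [Finsupp.sum_mapRange_index (by intro a; rw [mulOp_zero, mul_zero]), Finsupp.smul_sum]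
      apply Finsupp.sum_congr
      intro α _
      rw [mulOp_mul, mulOp_alg, ← Algebra.smul_def, mul_smul_comm]

end S4

theorem st_IND2 : ST_IND2 := by
  intro K _ _ B m n t y hm hc P hP
  have h1 : P ∈ S4.RR t m := by
    unfold Jm at hP
    induction hP using Submodule.span_induction with
    | mem x hx =>
      obtain ⟨Q, hQ, g, hg, rfl⟩ := hx
      exact S4.RR_right hm hg (S4.Dop_RR hc hQ)
    | zero => exact Submodule.zero_mem _
    | add x y _ _ hx hy => exact Submodule.add_mem _ hx hy
    | smul c x _ hx => exact Submodule.smul_mem _ c hx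
  obtain ⟨f, hf, hs⟩ := S4.RR_form hm h1
  exact ⟨f.support, f, hf, hs⟩

end Pool.Agent.Helper15.DAF
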